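import Pool.Agent.Helper26.WR.Stmts

set_option autoImplicit false

/-! # Generalised wreath products are iterated -/

namespace Pool.Agent.Helper26.WR

open Pool.Agent.Helper21.DN

theorem isog_finite {J : Type} [Finite J] (W B : J → Type) [∀ j, Finite (W j)]
    [∀ j, Group (B j)] [∀ j, Finite (B j)] (Q : Type) [Group Q] [Finite Q]
    [∀ j, MulAction Q (W j)] : Finite (WreathProduct W B Q) :=
  Finite.of_equiv ((∀ j, W j → B j) × Q) SemidirectProduct.equivProd.symm

theorem isog_pgroup {p : ℕ} [Fact p.Prime] {J : Type} [Finite J] (W B : J → Type)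
    [∀ j, Finite (W j)] [∀ j, Group (B j)] [∀ j, Finite (B j)] (Q : Type) [Group Q] [Finite Q]
    [∀ j, MulAction Q (W j)] (hB : ∀ j, IsPGroup p (B j)) (hQ : IsPGroup p Q) :
    IsPGroup p (WreathProduct W B Q) := by
  have := isog_finite W B Q
  cases nonempty_fintype J
  have h1 : ∀ j, ∃ n, Nat.card (B j) = p ^ n := fun j => IsPGroup.iff_card.1 (hB j)
  choose n hn using h1
  obtain ⟨m, hm⟩ := IsPGroup.iff_card.1 hQ
  apply IsPGroup.of_card (n := (∑ j, n j * Nat.card (W j)) + m)
  have h2 : Nat.card (WreathProduct W B Q) = Nat.card ((∀ j, W j → B j) × Q) :=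
    Nat.card_congr SemidirectProduct.equivProd
  rw [h2, Nat.card_prod, Nat.card_pi, hm, pow_add, ← Finset.prod_pow_eq_pow_sum]
  congr 1
  refine Finset.prod_congr rfl fun j _ => ?_
  rw [Nat.card_fun, hn j, ← pow_mul]

theorem isog_nontrivial {J : Type} (W B : J → Type) [∀ j, Nonempty (W j)]
    [∀ j, Group (B j)] [∀ j, Nontrivial (B j)] (Q : Type) [Group Q]
    [∀ j, MulAction Q (W j)] (j0 : J) : Nontrivial (WreathProduct W B Q) := by
  classical
  obtain ⟨b, hb⟩ := exists_ne (1 : B j0)
  obtain ⟨w⟩ : Nonempty (W j0) := inferInstance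
  refine ⟨⟨⟨fun j => if h : j = j0 then h.symm ▸ (fun _ : W j0 => b) else 1, 1⟩, 1, ?_⟩⟩
  intro h
  have h1 := congrFun (congrFun (congrArg (fun z => z.left) h) j0) w
  apply hb
  change (if h : j0 = j0 then h.symm ▸ (fun _ : W j0 => b) else 1 : W j0 → B j0) w = 1 at h1
  rw [dif_pos rfl] at h1
  exact h1

/-- the action of the complementary wreath product on `W j0` -/
@[instance_reducible]
def isogAct {J : Type} (W B : J → Type) [∀ j, Group (B j)] (Q : Type) [Group Q]
    [∀ j, MulAction Q (W j)] (j0 : J) :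
    MulAction (WreathProduct (fun j : {j : J // j ≠ j0} => W j) (fun j => B j) Q) (W j0) :=
  MulAction.compHom (W j0) (SemidirectProduct.rightHom :
    WreathProduct (fun j : {j : J // j ≠ j0} => W j) (fun j => B j) Q →* Q)

/-- the homomorphism -/
noncomputable def isogHom {J : Type} (W B : J → Type) [∀ j, Group (B j)] (Q : Type) [Group Q]
    [∀ j, MulAction Q (W j)] (j0 : J) :
    letI := isogAct W B Q j0
    WreathProduct W B Q →*
      WP (W j0) (B j0) (WreathProduct (fun j : {j : J // j ≠ j0} => W j) (fun j => B j) Q) :=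
  letI := isogAct W B Q j0
  MonoidHom.mk' (fun x => ⟨x.left j0, ⟨fun j => x.left j, x.right⟩⟩) (by
    intro x y
    apply SemidirectProduct.ext
    · funext w
      rfl
    · rfl)

theorem isog_bij {J : Type} (W B : J → Type) [∀ j, Group (B j)] (Q : Type) [Group Q]
    [∀ j, MulAction Q (W j)] (j0 : J) :
    letI := isogAct W B Q j0
    Function.Bijective (isogHom W B Q j0) := by
  classical
  let _ := isogAct W B Q j0
  constructor
  · intro x y h
    have h1 : x.left j0 = y.left j0 := congrArg (fun z => z.left) h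
    have h2 : (fun j : {j : J // j ≠ j0} => x.left j.1) =
        fun j : {j : J // j ≠ j0} => y.left j.1 := congrArg (fun z => z.right.left) h
    have h3 : x.right = y.right := congrArg (fun z => z.right.right) h
    apply SemidirectProduct.ext
    · funext j
      by_cases hj : j = j0
      · subst hj
        exact h1
      · exact congrFun h2 ⟨j, hj⟩
    · exact h3
  · rintro ⟨a, ⟨b, g⟩⟩
    have hex : ∃ x : WreathProduct W B Q, x.left = (fun j => if h : j = j0 then
        (h.symm ▸ a : W j → B j) else b ⟨j, h⟩) ∧ x.right = g := ⟨⟨_, g⟩, rfl, rfl⟩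
    obtain ⟨x, hx1, hx2⟩ := hex
    refine ⟨x, ?_⟩
    apply SemidirectProduct.ext
    · change x.left j0 = a
      rw [hx1]
      exact dif_pos rfl
    · apply SemidirectProduct.ext
      · funext j
        change x.left j.1 = b j
        rw [hx1]
        exact dif_neg j.2
      · exact hx2

theorem st_ISOG : ST_ISOG := by
  intro p _ J _ W B _ _ _ _ _ Q _ _ _ _ hB hQ
  refine ⟨isog_finite W B Q, isog_pgroup W B Q hB hQ, fun j0 =>
    ⟨isog_nontrivial W B Q j0, ?_⟩⟩
  let _ := isogAct W B Q j0
  refine ⟨WreathProduct (fun j : {j : J // j ≠ j0} => W j) (fun j => B j) Q, inferInstance,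
    isog_finite _ _ Q, isogAct W B Q j0, ?_, isog_pgroup _ _ Q (fun j => hB j) hQ,
    ⟨MulEquiv.ofBijective (isogHom W B Q j0) (isog_bij W B Q j0)⟩⟩
  refine ⟨?_⟩
  intro x y
  obtain ⟨g, hg⟩ := MulAction.exists_smul_eq Q x y
  exact ⟨SemidirectProduct.inr g, hg⟩

end Pool.Agent.Helper26.WR
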